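import Pool.Agent.W606.PS.Stm

/-!
Project PS, task MACH: the whole process.
-/

set_option autoImplicit false

open Set Relation

namespace Pool.Agent.W308.PS

open Pool.Agent.W606.PS

variable {V T : Type} {G : SimpleGraph V} {tv : T → Fin 3 → V}

/-- the start -/
theorem start (hS : Sph G tv) (M : ℕ) (v0 : V) :
    Inv G tv M 36 1 {v0} (fun _ => 0) (fun _ => 0) (fun _ => ∅) where
  part_lt := fun _ _ => Nat.one_pos
  lev_le := fun _ _ => Nat.zero_le _
  lev_adj := fun _ _ _ _ _ => Nat.zero_le _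
  thick := by
    intro p j
    have h1 : {v | v ∈ ({v0} : Set V) ∧ (0 : ℕ) = p ∧ (0 : ℕ) = j} ⊆ {v0} := fun v hv => hv.1
    have h2 := ncard_le_ncard h1 (finite_singleton v0)
    rw [ncard_singleton] at h2
    omega
  C_lt := by intro p _ q hq; simp at hq
  C_card := by intro p _; simp
  C_cl := by intro p _ q hq; simp at hq
  adj := fun _ _ _ _ _ => Or.inl rfl
  reg := by
    intro Om hOm
    refine ⟨Or.inl ⟨0, Nat.one_pos, ?_, fun _ _ => rfl⟩, fun _ => 0, fun _ _ => rfl, ?_⟩
    · have h1 : IsComp G (univ \ {v0}) Om := by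
        rwa [compl_eq_univ_sdiff] at hOm
      have h2 := con_diff_comp hS.conn (subset_univ {v0}) (con_singleton G v0) h1
      rwa [← compl_eq_univ_sdiff] at h2
    · intro u _ v _
      simp

/-- the loop -/
theorem loop [Fintype V] (h0 : S_NORM) (h1 : S_ONE1) (h2 : S_ONE2) (h3 : S_ONE3)
    (hS : Sph G tv) (k : ℕ) (hP : StepP G tv k) :
    ∀ (n N : ℕ) (U : Set V) (part lev : V → ℕ) (C : ℕ → Finset ℕ),
      Inv G tv (2 * k) 36 N U part lev C → (Uᶜ).ncard = n →
      ∃ (N : ℕ) (part lev : V → ℕ) (C : ℕ → Finset ℕ),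
        Inv G tv (2 * k) 36 N univ part lev C := by
  intro n
  induction n using Nat.strong_induction_on with
  | _ n ih =>
    intro N U part lev C hI hn
    by_cases hU : U = univ
    · subst hU
      exact ⟨N, part, lev, C, hI⟩
    · obtain ⟨u, hu⟩ : ∃ u, u ∉ U := by
        by_contra hcon
        push Not at hcon
        exact hU (eq_univ_of_forall hcon)
      obtain ⟨Om, hOm, -⟩ := exists_comp G (S := Uᶜ) (u := u) hu
      have hR := h0 V T G tv hS N C part Om hOm.2.1 (hI.reg Om hOm).1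
      have key : ∃ (U' : Set V) (part' lev' : V → ℕ) (C' : ℕ → Finset ℕ),
          Inv G tv (2 * k) 36 (N + 1) U' part' lev' C' ∧ U ⊂ U' := by
        rcases hR with hR | hR | hR
        · exact h1 V T G tv (2 * k) 36 N U part lev C hS (by norm_num) hI Om hOm hR
        · exact h2 V T G tv (2 * k) 36 N U part lev C hS (by norm_num) hI Om hOm hR
        · exact h3 V T G tv k N U part lev C hS hP hI Om hOm hR
      obtain ⟨U', part', lev', C', hI', hUU⟩ := key
      have hlt : (U'ᶜ).ncard < n := by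
        rw [← hn]
        exact ncard_lt_ncard (compl_lt_compl_iff_lt.2 hUU) (toFinite _)
      exact ih _ hlt (N + 1) U' part' lev' C' hI' rfl

theorem main (h0 : S_NORM) (h1 : S_ONE1) (h2 : S_ONE2) (h3 : S_ONE3) : S_MACH := by
  classical
  intro V T _ G tv hS k hk hP
  obtain ⟨v0, -⟩ := hS.conn.1
  obtain ⟨N, part, lev, C, hI⟩ := loop h0 h1 h2 h3 hS k hP _ 1 {v0} _ _ _ (start hS (2 * k) v0) rfl
  refine ⟨Fin N, inferInstance, fun p => p.val,
    fun p => Finset.univ.filter (fun q : Fin N => q.val ∈ C p.val),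
    fun v => ⟨part v, hI.part_lt v (mem_univ v)⟩, lev, ?_, ?_, ?_, ?_, ?_, ?_, ?_⟩
  · intro v
    exact hI.lev_le v (mem_univ v)
  · intro u v h
    exact hI.lev_adj u (mem_univ u) v (mem_univ v) h
  · intro p j
    have h4 := hI.thick p.val j
    have h5 : {v | (⟨part v, hI.part_lt v (mem_univ v)⟩ : Fin N) = p ∧ lev v = j} =
        {v | v ∈ univ ∧ part v = p.val ∧ lev v = j} := by
      ext v
      simp only [mem_ofPred_eq, mem_univ, true_and, Fin.ext_iff]
    rw [h5]
    exact h4
  · intro p q hq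
    exact hI.C_lt p.val p.isLt q.val (Finset.mem_filter.1 hq).2
  · intro p
    refine le_trans ?_ (hI.C_card p.val p.isLt)
    apply Finset.card_le_card_of_injOn (fun q : Fin N => q.val)
    · intro q hq
      exact (Finset.mem_filter.1 hq).2
    · intro a _ b _ hab
      exact Fin.ext hab
  · intro p q hq r hr
    have h4 := hI.C_cl p.val p.isLt q.val (Finset.mem_filter.1 hq).2 r.val
      (Finset.mem_filter.1 hr).2
    rcases h4 with h4 | h4 | h4
    · exact Or.inl (Fin.ext h4)
    · exact Or.inr (Or.inl (Finset.mem_filter.2 ⟨Finset.mem_univ _, h4⟩))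
    · exact Or.inr (Or.inr (Finset.mem_filter.2 ⟨Finset.mem_univ _, h4⟩))
  · intro u v h
    rcases hI.adj u (mem_univ u) v (mem_univ v) h with h4 | h4 | h4
    · exact Or.inl (Fin.ext h4)
    · exact Or.inr (Or.inl (Finset.mem_filter.2 ⟨Finset.mem_univ _, h4⟩))
    · exact Or.inr (Or.inr (Finset.mem_filter.2 ⟨Finset.mem_univ _, h4⟩))

end Pool.Agent.W308.PS
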